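import Pool.Agent.NTS.StmtsE
import Pool.Agent.Helper37_PFS.Main

/-! Squad NTS (MP_e54c4c_gt), row ZSL (helper55): the zoom step for pairs of sequences. -/

set_option autoImplicit false

open Matrix Filter Topology

noncomputable section

namespace Pool.Agent.NTS.H55

open Pool.Agent.PFS Pool.Agent.PFJ Pool.Agent.NTS

variable {n K : ℕ} {C : Set (V n)} {Γ : Subgroup (GL (Fin n) ℝ)}

theorem sact_sum (g : GL (Fin n) ℝ) (s : ℝ) (a : Fin K → ℝ) (x : Fin K → V n) :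
    s • act g (∑ i, a i • x i) = ∑ i, a i • (s • act g (x i)) := by
  rw [CC.act_sum, Finset.smul_sum]
  exact Finset.sum_congr rfl fun i _ => by rw [CC.act_smul, smul_comm]

/-- labelled nearness for the zoomed families -/
theorem nearL_zoom (hcc : CC C Γ) {g : GL (Fin n) ℝ} (hg : g ∈ Γ) {s : ℝ} (hs : 0 < s) {M L : ℝ}
    {x x' : Fin K → V n} {u v : Fin K → ℤ} (h : NearL C M L x x' (fun i => u i + v i)) :
    NearL C M L (fun i => s • act g ((2 : ℝ) ^ (u i) • x i))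
      (fun i => s • act g ((2 : ℝ) ^ (u i) • x' i)) v := by
  obtain ⟨c, h1, h2, h3, h4, h5⟩ := h
  have hu : ∀ i, (0 : ℝ) < 2 ^ (u i) := fun i => zpow_pos two_pos _
  have e1 : ∑ i, (c i / (2 : ℝ) ^ (u i)) • (s • act g ((2 : ℝ) ^ (u i) • x' i)) =
      s • act g (∑ i, c i • x' i) := by
    rw [sact_sum]
    refine Finset.sum_congr rfl fun i _ => ?_
    rw [CC.act_smul, smul_comm s, smul_smul, div_mul_cancel₀ _ (hu i).ne']
  have e2 : pt (fun i => s • act g ((2 : ℝ) ^ (u i) • x i)) v =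
      s • act g (pt x fun i => u i + v i) := by
    unfold pt
    rw [sact_sum]
    refine Finset.sum_congr rfl fun i _ => ?_
    show (2 : ℝ) ^ (v i) • (s • act g ((2 : ℝ) ^ (u i) • x i)) =
      (2 : ℝ) ^ (u i + v i) • (s • act g (x i))
    rw [CC.act_smul, smul_comm s, smul_smul, zpow_add₀ two_ne_zero, mul_comm]
  refine ⟨fun i => c i / (2 : ℝ) ^ (u i), fun i => div_pos (h1 i) (hu i), fun i => ?_, fun i => ?_,
    ?_, ?_⟩
  · have := h2 i
    rw [zpow_add₀ two_ne_zero] at this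
    rw [mul_div_assoc', le_div_iff₀ (hu i)]
    linarith
  · have := h3 i
    rw [zpow_add₀ two_ne_zero] at this
    show c i / (2 : ℝ) ^ (u i) ≤ _
    rw [div_le_iff₀ (hu i)]
    linarith
  · rw [e1, e2, ← smul_sub, ← CC.act_sub]
    exact (hcc.sact_cl_iff hg hs).2 h4
  · rw [e1, e2, smul_comm M, ← CC.act_smul, ← smul_sub, ← CC.act_sub]
    exact (hcc.sact_cl_iff hg hs).2 h5

/-- labelled nearness is a closed condition -/
theorem nearL_closed {M L : ℝ} (hL : 0 < L) {v : Fin K → ℤ} {Y Y' : ℕ → Fin K → V n}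
    {W W' : Fin K → V n} (hW : ∀ i, Tendsto (fun m => Y m i) atTop (𝓝 (W i)))
    (hW' : ∀ i, Tendsto (fun m => Y' m i) atTop (𝓝 (W' i)))
    (h : ∃ᶠ m in atTop, NearL C M L (Y m) (Y' m) v) : NearL C M L W W' v := by
  obtain ⟨ψ, hψ, hN⟩ := extraction_of_frequently_atTop h
  choose e _ he2 he3 he4 he5 using hN
  have hmem : ∀ m, e m ∈ Set.Icc (fun i => (2 : ℝ) ^ (v i) / L) (fun i => L * (2 : ℝ) ^ (v i)) :=
    fun m => ⟨fun i => by
      show (2 : ℝ) ^ (v i) / L ≤ e m i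
      rw [div_le_iff₀ hL]
      linarith [he2 m i], fun i => he3 m i⟩
  obtain ⟨f, hf, φ, hφ, hlim⟩ := isCompact_Icc.tendsto_subseq hmem
  have hfi : ∀ i, Tendsto (fun m => e (φ m) i) atTop (𝓝 (f i)) := fun i =>
    (tendsto_pi_nhds.1 hlim) i
  have ht : Tendsto (fun m => ψ (φ m)) atTop atTop := (hψ.comp hφ).tendsto_atTop
  have l1 : Tendsto (fun m => ∑ i, e (φ m) i • Y' (ψ (φ m)) i) atTop (𝓝 (∑ i, f i • W' i)) :=
    tendsto_finsetSum _ fun i _ => (hfi i).smul ((hW' i).comp ht)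
  have l2 : Tendsto (fun m => pt (Y (ψ (φ m))) v) atTop (𝓝 (pt W v)) :=
    tendsto_finsetSum _ fun i _ => ((hW i).comp ht).const_smul _
  refine ⟨f, fun i => lt_of_lt_of_le (div_pos (zpow_pos two_pos _) hL) (hf.1 i), fun i => ?_,
    fun i => hf.2 i, ?_, ?_⟩
  · have : (2 : ℝ) ^ (v i) / L ≤ f i := hf.1 i
    rw [div_le_iff₀ hL] at this
    linarith
  · exact isClosed_closure.mem_of_tendsto (l1.sub l2) (Eventually.of_forall fun m => he4 (φ m))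
  · exact isClosed_closure.mem_of_tendsto ((l2.const_smul M).sub l1)
      (Eventually.of_forall fun m => he5 (φ m))

theorem limits (hcc : CC C Γ) (hK : 2 ≤ K) {T : (Fin K → V n) → Prop} (hT : FamE C Γ K T)
    {Y Y' : ℕ → Fin K → V n} {M L : ℝ} {p : V n} (hp : p ∈ C) (hY : ∀ m, T (Y m))
    (hY' : ∀ m, T (Y' m)) (hN : ∀ m, NearL C M L (Y m) (Y' m) 0)
    (hlim : Tendsto (fun m => ∑ i, Y m i) atTop (𝓝 p)) :
    ∃ (θ : ℕ → ℕ) (W W' : Fin K → V n), StrictMono θ ∧ T W ∧ T W' ∧ ∑ i, W i = p ∧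
      (∀ i, Tendsto (fun m => Y (θ m) i) atTop (𝓝 (W i))) ∧
      (∀ i, Tendsto (fun m => Y' (θ m) i) atTop (𝓝 (W' i))) := by
  have hcard : 2 ≤ Fintype.card (Fin K) := by rw [Fintype.card_fin]; exact hK
  choose e he1 he2 he3 he4 he5 using hN
  have hone : ∀ i : Fin K, (2 : ℝ) ^ ((0 : Fin K → ℤ) i) = 1 := fun i => by
    rw [Pi.zero_apply, zpow_zero]
  have hpt : ∀ m, pt (Y m) (0 : Fin K → ℤ) = ∑ i, Y m i := fun m =>
    Finset.sum_congr rfl fun i _ => by rw [hone, one_smul]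
  have hL : 0 < L := by
    have h1 := he2 0 ⟨0, by omega⟩
    have h2 := he1 0 ⟨0, by omega⟩
    rw [hone] at h1
    by_contra hc
    have : L * e 0 ⟨0, by omega⟩ ≤ 0 := mul_nonpos_of_nonpos_of_nonneg (not_lt.1 hc) h2.le
    linarith
  -- first subsequence
  obtain ⟨φ1, W, hφ1, hW, hWp, hWI⟩ := Pool.Agent.PFS.H37.lpsF n C Γ hcc (Fin K) hcard Y p
    (fun m => hT.pes _ (hY m)) hp hlim
  have hTW : T W := hT.closed _ W (fun m => hY (φ1 m)) hW hWI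
  -- second subsequence
  have hmem : ∀ m, e (φ1 m) ∈ Set.Icc (fun _ : Fin K => 1 / L) (fun _ => L) := fun m =>
    ⟨fun i => by
      show 1 / L ≤ e (φ1 m) i
      have := he2 (φ1 m) i
      rw [hone] at this
      rw [div_le_iff₀ hL]
      linarith, fun i => by
      have := he3 (φ1 m) i
      rw [hone, mul_one] at this
      exact this⟩
  obtain ⟨f, hf, φ2, hφ2, hlf⟩ := isCompact_Icc.tendsto_subseq hmem
  have hf0 : ∀ i, 0 < f i := fun i => lt_of_lt_of_le (div_pos one_pos hL) (hf.1 i)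
  -- the sums are bounded
  obtain ⟨B, hB0, hB⟩ := hcc.normal
  obtain ⟨R, hR⟩ := (hlim.norm).bddAbove_range
  have hcl : ∀ m, ∑ i, Y m i ∈ closure C := fun m => by
    have := (hT.pes _ (hY m)).1.pos (fun _ => 1) fun _ => one_pos
    simp only [one_smul] at this
    exact subset_closure this
  have hQ : ∀ m, (∑ i, e (φ1 (φ2 m)) i • Y' (φ1 (φ2 m)) i) ∈
      Metric.closedBall (0 : V n) (B * (|M| * R)) := by
    intro m
    have h4 := he4 (φ1 (φ2 m))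
    have h5 := he5 (φ1 (φ2 m))
    rw [hpt] at h4 h5
    have h6 := hB _ _ (hcc.cl_of_le (hcl _) h4) h5
    rw [mem_closedBall_zero_iff]
    refine h6.trans (mul_le_mul_of_nonneg_left ?_ hB0.le)
    rw [norm_smul, Real.norm_eq_abs]
    exact mul_le_mul_of_nonneg_left (hR ⟨_, rfl⟩) (abs_nonneg _)
  obtain ⟨q, -, φ3, hφ3, hq⟩ := tendsto_subseq_of_bounded Metric.isBounded_closedBall hQ
  have hq' : Tendsto (fun m => ∑ i, e (φ1 (φ2 (φ3 m))) i • Y' (φ1 (φ2 (φ3 m))) i) atTop (𝓝 q) := hq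
  have ht3 : Tendsto (fun m => φ1 (φ2 (φ3 m))) atTop atTop :=
    (hφ1.comp (hφ2.comp hφ3)).tendsto_atTop
  have hqC : q ∈ C := by
    refine hcc.mem_of_le hp (isClosed_closure.mem_of_tendsto (hq'.sub (hlim.comp ht3))
      (Eventually.of_forall fun m => ?_))
    have h4 := he4 (φ1 (φ2 (φ3 m)))
    rw [hpt] at h4
    exact h4
  obtain ⟨φ4, U, hφ4, hU, -, hUI⟩ := Pool.Agent.PFS.H37.lpsF n C Γ hcc (Fin K) hcard
    (fun m i => e (φ1 (φ2 (φ3 m))) i • Y' (φ1 (φ2 (φ3 m))) i) q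
    (fun m => (Pool.Agent.PFS.H60.elm n C Γ hcc (Fin K) _ (hT.pes _ (hY' _))).1 _ (he1 _)) hqC hq'
  have hlf' : ∀ i, Tendsto (fun m => e (φ1 (φ2 (φ3 (φ4 m)))) i) atTop (𝓝 (f i)) := fun i =>
    ((tendsto_pi_nhds.1 hlf) i).comp (hφ3.comp hφ4).tendsto_atTop
  have hW' : ∀ i, Tendsto (fun m => Y' (φ1 (φ2 (φ3 (φ4 m)))) i) atTop (𝓝 ((f i)⁻¹ • U i)) := by
    intro i
    have h1 := ((hlf' i).inv₀ (hf0 i).ne').smul (hU i)
    refine h1.congr fun m => ?_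
    show (e (φ1 (φ2 (φ3 (φ4 m)))) i)⁻¹ • (e (φ1 (φ2 (φ3 (φ4 m)))) i • Y' (φ1 (φ2 (φ3 (φ4 m)))) i) = _
    rw [smul_smul, inv_mul_cancel₀ (he1 _ i).ne', one_smul]
  refine ⟨fun m => φ1 (φ2 (φ3 (φ4 m))), W, fun i => (f i)⁻¹ • U i,
    hφ1.comp (hφ2.comp (hφ3.comp hφ4)), hTW, ?_, hWp, fun i => ?_, hW'⟩
  · exact hT.closed _ _ (fun m => hY' _) hW'
      ((Pool.Agent.PFS.H60.elm n C Γ hcc (Fin K) _ hUI).1 _ fun i => inv_pos.2 (hf0 i))
  · exact (hW i).comp (hφ2.comp (hφ3.comp hφ4)).tendsto_atTop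

theorem zsl : ZslStmt := by
  intro n C Γ hcc K hK T hT x x' u M₁ L₁ hx hx' hN hF
  have hu : ∀ m i, (0 : ℝ) < 2 ^ (u m i) := fun m i => zpow_pos two_pos _
  have hpt : ∀ m, pt (x m) (u m) ∈ C ∧ pt (x m) (u m) ∈ Hull C Γ := fun m =>
    (Pool.Agent.PFS.H60.elm n C Γ hcc (Fin K) _ (hT.pes _ (hx m))).2.2.2.2 (u m)
  obtain ⟨φ0, g, s, p, hφ0, hg, hs, hp, hlim⟩ := Pool.Agent.PFS.H60.zom n C Γ hcc
    (fun m => pt (x m) (u m)) (fun m => (hpt m).1) fun m => (hpt m).2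
  -- the zoomed families
  obtain ⟨Y, hYdef⟩ : ∃ Y : ℕ → Fin K → V n, Y = fun m i =>
    s m • act (g m) ((2 : ℝ) ^ (u (φ0 m) i) • x (φ0 m) i) := ⟨_, rfl⟩
  obtain ⟨Y', hY'def⟩ : ∃ Y' : ℕ → Fin K → V n, Y' = fun m i =>
    s m • act (g m) ((2 : ℝ) ^ (u (φ0 m) i) • x' (φ0 m) i) := ⟨_, rfl⟩
  have hTY : ∀ m, T (Y m) := fun m => by
    rw [hYdef]
    exact hT.act _ (hT.scale _ (hx (φ0 m)) _ (hu (φ0 m))) _ (hg m) _ (hs m)
  have hTY' : ∀ m, T (Y' m) := fun m => by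
    rw [hY'def]
    exact hT.act _ (hT.scale _ (hx' (φ0 m)) _ (hu (φ0 m))) _ (hg m) _ (hs m)
  have hzoom : ∀ (m : ℕ) (M L : ℝ) (v : Fin K → ℤ),
      NearL C M L (x (φ0 m)) (x' (φ0 m)) (fun i => u (φ0 m) i + v i) →
      NearL C M L (Y m) (Y' m) v := fun m M L v h => by
    rw [hYdef, hY'def]
    exact nearL_zoom hcc (hg m) (hs m) h
  have hsum : ∀ m, ∑ i, Y m i = s m • act (g m) (pt (x (φ0 m)) (u (φ0 m))) := fun m => by
    rw [hYdef]
    unfold pt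
    rw [sact_sum]
    refine Finset.sum_congr rfl fun i _ => ?_
    show s m • act (g m) ((2 : ℝ) ^ (u (φ0 m) i) • x (φ0 m) i) = _
    rw [CC.act_smul, smul_comm]
  have hlimY : Tendsto (fun m => ∑ i, Y m i) atTop (𝓝 p) := by
    simp only [hsum]
    exact hlim
  obtain ⟨θ, W, W', hθ, hTW, hTW', hWp, hW, hW'⟩ := limits hcc hK hT hp hTY hTY'
    (fun m => hzoom m M₁ L₁ 0 (by simpa using hN (φ0 m))) hlimY
  refine ⟨fun m => φ0 (θ m), W, W', hφ0.comp hθ, hTW, hTW', ?_, ?_⟩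
  · rintro ⟨σ, c, hc, hWW⟩
    have hpW' : p ∈ PosCone W' := by
      refine ⟨fun i => c (σ.symm i), fun i => hc _, ?_⟩
      rw [← hWp, ← Equiv.sum_comp σ fun i => c (σ.symm i) • W' i]
      exact Finset.sum_congr rfl fun i _ => by rw [hWW i, σ.symm_apply_apply]
    have hev := Pool.Agent.PFS.H55.nop n C hcc.toPCone (Fin K) (fun m => Y' (θ m)) W'
      (fun m => ∑ i, Y (θ m) i) p 2 one_lt_two hp hpW' hW' (hlimY.comp hθ.tendsto_atTop)
    obtain ⟨m, hm⟩ := hev.exists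
    apply hF (φ0 (θ m))
    rw [hsum, hY'def] at hm
    have h2 := ((Pool.Agent.PFS.H82.nin n C Γ hcc K _ _ 2).1 _ (hg (θ m)) _ _ (hs (θ m))
      (hs (θ m))).1 hm
    obtain ⟨d, hd, h3, h4⟩ := h2
    have e : ∑ i, (d i * (2 : ℝ) ^ (u (φ0 (θ m)) i)) • x' (φ0 (θ m)) i =
        ∑ i, d i • ((2 : ℝ) ^ (u (φ0 (θ m)) i) • x' (φ0 (θ m)) i) :=
      Finset.sum_congr rfl fun i _ => by rw [smul_smul]
    refine ⟨fun i => d i * (2 : ℝ) ^ (u (φ0 (θ m)) i), fun i => mul_pos (hd i) (hu _ i), ?_, ?_⟩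
    · rw [e]; exact h3
    · rw [e]; exact h4
  · intro v hv
    exact nearL_closed (by norm_num) hW hW' (hv.mono fun m hm => hzoom (θ m) 2 4 v hm)

end Pool.Agent.NTS.H55
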